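import Pool.Agent.H147_fact.Poly
import Pool.Agent.H147_fact.ShortC

/-!
# Factorials in the value set of a polynomial are sparse

For every polynomial `P` with integer coefficients of degree at least 2 and every integer `c ≠ 0`
there is a `C` such that every interval `(N - H, N]`, `0 ≤ H ≤ N`, contains at most
`C H ^ (5 / 6)` integers `n` for which `P(x) = c n!` has an integer solution `x`.
-/

open Finset Pool.Agent.H147 in
theorem Pool.Agent.Results.MP_a9ea7c_nt.PolynomialSparse.result (P : Polynomial ℤ)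
    (hP : 2 ≤ P.natDegree) (c : ℤ) (hc : c ≠ 0) :
    ∃ C : ℝ, ∀ N H : ℕ, H ≤ N →
      (({n : ℕ | N - H < n ∧ n ≤ N ∧ ∃ x : ℤ, P.eval x = c * (n.factorial : ℤ)}.ncard : ℕ) : ℝ)
        ≤ C * (H : ℝ) ^ (5 / 6 : ℝ) := by
  classical
  obtain ⟨Q, c', hQ, hc', hiff⟩ : ∃ (Q : Polynomial ℤ) (c' : ℕ), Q.natDegree = P.natDegree ∧ 1 ≤ c' ∧
      ∀ (n : ℕ) (x : ℤ), P.eval x = c * (n.factorial : ℤ) → Q.eval x = (c' : ℤ) * n.factorial := by
    rcases lt_or_gt_of_ne hc with h | h
    · refine ⟨-P, (-c).toNat, Polynomial.natDegree_neg P, by omega, fun n x hx => ?_⟩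
      rw [Polynomial.eval_neg, hx, Int.toNat_of_nonneg (by omega)]; ring
    · refine ⟨P, c.toNat, rfl, by omega, fun n x hx => ?_⟩
      rw [hx, Int.toNat_of_nonneg h.le]
  obtain ⟨lam, hlam, n0, hn0⟩ := near_poly Q P.natDegree hP hQ c' hc'
  set Bad : ℕ → Prop := fun n => ∃ x : ℤ, P.eval x = c * (n.factorial : ℤ) with hBad
  obtain ⟨C, -, hC⟩ := count_fixed_c P.natDegree lam hP hlam (fun n => if Bad n then 1 else 0) n0 (by
    intro n hn
    by_cases hb : Bad n
    · obtain ⟨x, hx⟩ := hb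
      have h1 := hn0 n hn x (hiff n x hx)
      simp only [h1, if_true]
      split_ifs <;> norm_num
    · simp only [hb, if_false]
      exact Nat.zero_le _)
  refine ⟨C, fun N H hHN => le_trans ?_ (hC N H hHN)⟩
  have h1 : {n : ℕ | N - H < n ∧ n ≤ N ∧ ∃ x : ℤ, P.eval x = c * (n.factorial : ℤ)}
      = (((Ioc (N - H) N).filter Bad : Finset ℕ) : Set ℕ) := by
    ext n
    simp only [Set.mem_ofPred_eq, coe_filter, mem_Ioc, hBad]
    tauto
  rw [h1, Set.ncard_coe_finset, card_filter]
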