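import Pool.Agent.H147_fact.Poly
import Pool.Agent.H147_fact.LocalC

/-!
# Factorials in the value set of a polynomial, in very short windows

There is an absolute `κ > 0` such that for every polynomial `P` with integer coefficients of degree
`t ≥ 2`, every integer `c ≠ 0` and all large `n`, at most `2 t` of the integers `n'` with
`n ≤ n' ≤ n + κ log n / log log n` are such that `P(x) = c n'!` has an integer solution `x`.
-/

open Finset Filter Pool.Agent.H147 in
theorem Pool.Agent.Results.MP_a9ea7c_nt.PolynomialWindows.result :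
    ∃ κ : ℝ, 0 < κ ∧ ∀ P : Polynomial ℤ, 2 ≤ P.natDegree → ∀ c : ℤ, c ≠ 0 →
      ∃ n₀ : ℕ, ∀ n : ℕ, n₀ ≤ n →
        {n' : ℕ | n ≤ n' ∧ (n' : ℝ) ≤ n + κ * Real.log n / Real.log (Real.log n) ∧
          ∃ x : ℤ, P.eval x = c * (n'.factorial : ℤ)}.ncard ≤ 2 * P.natDegree := by
  classical
  refine ⟨1 / 20000, by norm_num, fun P hP c hc => ?_⟩
  obtain ⟨Q, c', hQ, hc', hiff⟩ : ∃ (Q : Polynomial ℤ) (c' : ℕ), Q.natDegree = P.natDegree ∧ 1 ≤ c' ∧
      ∀ (n : ℕ) (x : ℤ), P.eval x = c * (n.factorial : ℤ) → Q.eval x = (c' : ℤ) * n.factorial := by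
    rcases lt_or_gt_of_ne hc with h | h
    · refine ⟨-P, (-c).toNat, Polynomial.natDegree_neg P, by omega, fun n x hx => ?_⟩
      rw [Polynomial.eval_neg, hx, Int.toNat_of_nonneg (by omega)]; ring
    · refine ⟨P, c.toNat, rfl, by omega, fun n x hx => ?_⟩
      rw [hx, Int.toNat_of_nonneg h.le]
  obtain ⟨lam, hlam, n1, hn1⟩ := near_poly Q P.natDegree hP hQ c' hc'
  obtain ⟨n2, hn2⟩ := eventually_window
  set t := P.natDegree with ht
  set B : ℝ := t * lam + 1 with hB
  have hB0 : 0 < B := by positivity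
  obtain ⟨n3, hn3⟩ : ∃ n3 : ℕ, ∀ n : ℕ, n3 ≤ n →
      Real.log (Real.log n) ≤ 1 / (20000 * B) * Real.log n := by
    have hlog : Tendsto (fun n : ℕ => Real.log n) atTop atTop :=
      Real.tendsto_log_atTop.comp tendsto_natCast_atTop_atTop
    have h4 : ∀ᶠ x : ℝ in atTop, ‖Real.log x‖ ≤ (1 / (20000 * B)) * ‖id x‖ :=
      Real.isLittleO_log_id_atTop.def (by positivity)
    have h5 : ∀ᶠ x : ℝ in atTop, Real.log x ≤ (1 / (20000 * B)) * x := by
      filter_upwards [h4, eventually_gt_atTop 0] with x h5 h6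
      simp only [id, Real.norm_eq_abs, abs_of_pos h6] at h5
      exact (le_abs_self _).trans h5
    exact eventually_atTop.1 (hlog.eventually h5)
  refine ⟨max (max n1 n2) (max n3 1), fun n hn => ?_⟩
  have h1 : n1 ≤ n := le_trans (le_trans (le_max_left _ _) (le_max_left _ _)) hn
  have h2 : n2 ≤ n := le_trans (le_trans (le_max_right _ _) (le_max_left _ _)) hn
  have h3 : n3 ≤ n := le_trans (le_trans (le_max_left _ _) (le_max_right _ _)) hn
  obtain ⟨a1, a2, a3⟩ := hn2 n h2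
  have a4 := hn3 n h3
  set ℓ := Real.log n with hℓ
  set L := ⌊1 / 20000 * ℓ / Real.log ℓ⌋₊ with hL
  have hq0 : 0 ≤ 1 / 20000 * ℓ / Real.log ℓ := by
    apply div_nonneg <;> linarith
  have hLle : (L : ℝ) ≤ 1 / 20000 * ℓ / Real.log ℓ := Nat.floor_le hq0
  have hLge : (t : ℝ) * lam ≤ L := by
    have b1 : 1 / 20000 * ℓ / Real.log ℓ < L + 1 := Nat.lt_floor_add_one _
    have b2 : B ≤ 1 / 20000 * ℓ / Real.log ℓ := by
      rw [le_div_iff₀ (by linarith)]
      have : B * Real.log ℓ ≤ B * (1 / (20000 * B) * ℓ) := mul_le_mul_of_nonneg_left a4 hB0.le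
      refine this.trans (le_of_eq ?_)
      field_simp
    rw [hB] at b2
    linarith
  have hLℓ : (L : ℝ) ≤ 1 / 20000 * ℓ := by
    refine hLle.trans ?_
    rw [div_le_iff₀ (by linarith)]
    nlinarith
  have hLlog : 20000 * ((L : ℝ) * Real.log (2 * L)) ≤ ℓ := by
    rcases Nat.eq_zero_or_pos L with h0 | h0
    · rw [h0]; simp; linarith
    have hL0 : (0 : ℝ) < L := by exact_mod_cast h0
    have b1 : Real.log (2 * L) ≤ Real.log ℓ := by
      apply Real.log_le_log (by positivity)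
      linarith
    have b2 : (L : ℝ) * Real.log (2 * L) ≤ L * Real.log ℓ := mul_le_mul_of_nonneg_left b1 hL0.le
    have b3 : (L : ℝ) * Real.log ℓ ≤ 1 / 20000 * ℓ := by
      rwa [le_div_iff₀ (by linarith)] at hLle
    linarith
  have hL3 : 3000000 * L ^ 3 ≤ 2 * n := by
    have b1 : (L : ℝ) ^ 3 ≤ ℓ ^ 3 := by
      apply pow_le_pow_left₀ (by positivity)
      linarith
    have : (3000000 * L ^ 3 : ℝ) ≤ 2 * n := by linarith
    exact_mod_cast this
  have hsub : {n' : ℕ | n ≤ n' ∧ (n' : ℝ) ≤ n + 1 / 20000 * ℓ / Real.log ℓ ∧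
          ∃ x : ℤ, P.eval x = c * (n'.factorial : ℤ)}
      ⊆ (((Icc n (n + L)).filter (fun n' => NearC lam t n') : Finset ℕ) : Set ℕ) := by
    rintro n' ⟨b1, b2, x, hx⟩
    rw [mem_coe, mem_filter, mem_Icc]
    have b3 : ((n' - n : ℕ) : ℝ) ≤ 1 / 20000 * ℓ / Real.log ℓ := by
      rw [Nat.cast_sub b1]; linarith
    have b4 : n' - n ≤ L := Nat.le_floor b3
    exact ⟨⟨b1, by omega⟩, hn1 n' (by omega) x (hiff n' x hx)⟩
  refine (Set.ncard_le_ncard hsub (finite_toSet _)).trans ?_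
  rw [Set.ncard_coe_finset]
  have hL0 : (0 : ℝ) ≤ L := by positivity
  exact class_card_c n L t lam hlam (by linarith) hP a1 hLlog hL3
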